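import Pool.Agent.R721.SC.Path

set_option autoImplicit false

namespace Pool.Agent.R721.SC

/-- the number of the layer of a vector -/
def top {d : ℕ} (v : Fin d → ZMod 2) : ℕ :=
  Finset.univ.sup (fun i : Fin d => if v i = 0 then 0 else i.val + 1)

section
variable {d : ℕ}

theorem top_le {v : Fin d → ZMod 2} {t : ℕ} : top v ≤ t ↔ ∀ i : Fin d, t ≤ i.val → v i = 0 := by
  unfold top
  rw [Finset.sup_le_iff]
  constructor
  · intro h i hi
    by_contra h0
    have := h i (Finset.mem_univ _)
    rw [if_neg h0] at this
    omega
  · intro h i _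
    by_cases h0 : v i = 0
    · rw [if_pos h0]
      exact Nat.zero_le _
    · rw [if_neg h0]
      by_contra h1
      exact h0 (h i (by omega))

theorem top_le_d (v : Fin d → ZMod 2) : top v ≤ d :=
  top_le.2 fun i hi => absurd i.isLt (by omega)

theorem top_add {v w : Fin d → ZMod 2} {t : ℕ} (hv : top v ≤ t) (hw : top w ≤ t) :
    top (v + w) ≤ t := by
  rw [top_le] at *
  intro i hi
  rw [Pi.add_apply, hv i hi, hw i hi, add_zero]

theorem two_zero (v : Fin d → ZMod 2) : v + v = 0 := by
  funext i
  exact CharTwo.add_self_eq_zero _

theorem top_e (i : Fin d) : top (e 2 i) = i.val + 1 := by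
  apply le_antisymm
  · rw [top_le]
    intro j hj
    rw [e_apply, if_neg]
    intro h
    rw [h] at hj
    omega
  · by_contra h
    have h1 : top (e 2 i) ≤ i.val := by omega
    have := top_le.1 h1 i le_rfl
    rw [e_apply, if_pos rfl] at this
    exact one_ne_zero this

theorem top_eq_of {v : Fin d → ZMod 2} {i : Fin d} (h1 : top v ≤ i.val + 1) (h2 : v i ≠ 0) :
    top v = i.val + 1 := by
  apply le_antisymm h1
  by_contra h
  exact h2 (top_le.1 (show top v ≤ i.val by omega) i le_rfl)

theorem zmod2 (x : ZMod 2) (h : x ≠ 0) : x = 1 := by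
  revert x
  decide

/-- the layer colouring -/
def colF (v : Fin d → ZMod 2) : Fin 3 := ⟨top v % 3, Nat.mod_lt _ (by norm_num)⟩

theorem flag_preserved (a : Fin d → ZMod 2) (φ : (Fin d → ZMod 2) ≃+ (Fin d → ZMod 2))
    (hc : ∀ v, colF (a + φ v) = colF v) : ∀ n t : ℕ, t + n = d → ∀ v : Fin d → ZMod 2,
      top v ≤ t → top (a + φ v) ≤ t := by
  have hc' : ∀ v, top (a + φ v) % 3 = top v % 3 := fun v => congrArg Fin.val (hc v)
  intro n
  induction n with
  | zero =>
      intro t ht v _
      have := top_le_d (a + φ v)
      omega
  | succ n ih =>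
      intro t ht v hv
      have h1 := ih (t + 1) (by omega) v (by omega)
      by_contra hcon
      have h2 : top (a + φ v) = t + 1 := by omega
      have h3 := hc' v
      rw [h2] at h3
      have h4 : top v + 2 ≤ t := by omega
      have ht1 : t - 1 < d := by omega
      have ht2 : t - 2 < d := by omega
      set u : Fin d → ZMod 2 := e 2 ⟨t - 1, ht1⟩ with hu
      set w : Fin d → ZMod 2 := e 2 ⟨t - 2, ht2⟩ with hw
      have htu : top u = t := by
        rw [hu, top_e]
        show t - 1 + 1 = t
        omega
      have htw : top w = t - 1 := by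
        rw [hw, top_e]
        show t - 2 + 1 = t - 1
        omega
      have htx : top (u + w + v) = t := by
        have h5 : top (u + w + v) ≤ t :=
          top_add (top_add (by omega) (by omega)) (by omega)
        have h6 : (u + w + v) ⟨t - 1, ht1⟩ ≠ 0 := by
          rw [Pi.add_apply, Pi.add_apply, hu, hw, e_apply, e_apply, if_pos rfl, if_neg, add_zero]
          · rw [top_le.1 (show top v ≤ t - 1 by omega) ⟨t - 1, ht1⟩ (by simp), add_zero]
            exact one_ne_zero
          · intro h
            have := congrArg Fin.val h
            simp at this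
            omega
        have := top_eq_of (i := ⟨t - 1, ht1⟩) (v := u + w + v) (by
          show top (u + w + v) ≤ t - 1 + 1
          omega) h6
        rw [this]
        show t - 1 + 1 = t
        omega
      have key : ∀ x : Fin d → ZMod 2, top x ≤ t → top x % 3 ≠ (t + 1) % 3 →
          top (a + φ x) ≤ t := by
        intro x hx hne
        have h7 := ih (t + 1) (by omega) x (by omega)
        have h8 := hc' x
        omega
      have hfu := key u (by omega) (by omega)
      have hfw := key w (by omega) (by omega)
      have hfx := key (u + w + v) (by omega) (by omega)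
      have h9 : a + φ v = (a + φ u) + (a + φ w) + (a + φ (u + w + v)) := by
        rw [map_add, map_add]
        have e1 := two_zero a
        have e2 := two_zero (φ u)
        have e3 := two_zero (φ w)
        calc a + φ v = (a + a) + (φ u + φ u) + (φ w + φ w) + (a + φ v) := by
              rw [e1, e2, e3]; simp
          _ = _ := by abel
      apply hcon
      rw [h9]
      exact top_add (top_add hfu hfw) hfx

theorem flag_unip (a : Fin d → ZMod 2) (φ : (Fin d → ZMod 2) ≃+ (Fin d → ZMod 2))
    (hc : ∀ v, colF (a + φ v) = colF v) :
    ∃ k : ℕ, ∀ v, (fun v => a + φ v)^[2 ^ k] v = v := by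
  have hf := flag_preserved a φ hc
  have ha : a = 0 := by
    have h1 := hf d 0 (by omega) 0 (top_le.2 fun i _ => rfl)
    rw [map_zero, add_zero] at h1
    funext i
    exact top_le.1 h1 i (Nat.zero_le _)
  subst ha
  have hφ : (fun v => (0 : Fin d → ZMod 2) + φ v) = ⇑φ := by
    funext v
    rw [zero_add]
  rw [hφ]
  have hf' : ∀ t, t ≤ d → ∀ v, top v ≤ t → top (φ v) ≤ t := by
    intro t ht v hv
    have := hf (d - t) t (by omega) v hv
    rwa [zero_add] at this
  have hit : ∀ m t, t ≤ d → ∀ v, top v ≤ t → top ((⇑φ)^[m] v) ≤ t := by
    intro m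
    induction m with
    | zero => intro t _ v hv; exact hv
    | succ m ih =>
        intro t ht v hv
        rw [Function.iterate_succ_apply']
        exact hf' t ht _ (ih t ht v hv)
  have main : ∀ t, t ≤ d → ∃ k : ℕ, ∀ v, top v ≤ t → (⇑φ)^[2 ^ k] v = v := by
    intro t
    induction t with
    | zero =>
        intro _
        refine ⟨0, fun v hv => ?_⟩
        have : v = 0 := by
          funext i
          exact top_le.1 hv i (Nat.zero_le _)
        subst this
        simp
    | succ t ih =>
        intro ht
        obtain ⟨k, hk⟩ := ih (by omega)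
        refine ⟨k + 1, ?_⟩
        set h := (⇑φ)^[2 ^ k] with hh
        have hadd : ∀ x y, h (x + y) = h x + h y := by
          intro x y
          rw [hh]
          exact iterate_map_add φ _ x y
        have hinj : Function.Injective h := φ.injective.iterate _
        have h2 : ∀ v, (⇑φ)^[2 ^ (k + 1)] v = h (h v) := by
          intro v
          rw [pow_succ, mul_two, Function.iterate_add_apply]
        set E : Fin d → ZMod 2 := e 2 ⟨t, by omega⟩ with hE
        have hEt : top E = t + 1 := by rw [hE, top_e]
        have hhE : top (h E) ≤ t + 1 := hit _ _ ht _ hEt.le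
        have hEi : (h E) ⟨t, by omega⟩ = 1 := by
          apply zmod2
          intro h0
          have h3 : top (h E) ≤ t := by
            rw [top_le]
            intro i hi
            rcases Nat.lt_or_ge i.val (t + 1) with h4 | h4
            · have : i = ⟨t, by omega⟩ := Fin.ext (by simp; omega)
              rw [this]
              exact h0
            · exact top_le.1 hhE i h4
          have h5 := hinj (hk _ h3)
          rw [h5] at h3
          omega
        have hw : top (h E + E) ≤ t := by
          rw [top_le]
          intro i hi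
          rcases Nat.lt_or_ge i.val (t + 1) with h4 | h4
          · have hi' : i = ⟨t, by omega⟩ := Fin.ext (by simp; omega)
            rw [hi', Pi.add_apply, hEi, hE, e_apply, if_pos rfl]
            exact CharTwo.add_self_eq_zero _
          · exact top_le.1 (top_add hhE hEt.le) i h4
        have hhhE : h (h E) = E := by
          have e1 : h E = (h E + E) + E := by
            rw [add_assoc, two_zero, add_zero]
          have e2 := congrArg h e1
          rw [hadd, hk _ hw] at e2
          rw [e2, add_right_comm, two_zero, zero_add]
        intro v hv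
        rw [h2]
        by_cases hvt : v ⟨t, by omega⟩ = 0
        · have h6 : top v ≤ t := by
            rw [top_le]
            intro i hi
            rcases Nat.lt_or_ge i.val (t + 1) with h4 | h4
            · have : i = ⟨t, by omega⟩ := Fin.ext (by simp; omega)
              rw [this]
              exact hvt
            · exact top_le.1 hv i h4
          rw [hk _ h6, hk _ h6]
        · have h6 : top (v + E) ≤ t := by
            rw [top_le]
            intro i hi
            rcases Nat.lt_or_ge i.val (t + 1) with h4 | h4
            · have hi' : i = ⟨t, by omega⟩ := Fin.ext (by simp; omega)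
              rw [hi', Pi.add_apply, zmod2 _ hvt, hE, e_apply, if_pos rfl]
              exact CharTwo.add_self_eq_zero _
            · exact top_le.1 (top_add hv hEt.le) i h4
          have e1 : v = (v + E) + E := by
            rw [add_assoc, two_zero, add_zero]
          calc h (h v) = h (h ((v + E) + E)) := by rw [← e1]
            _ = h (h (v + E)) + h (h E) := by rw [hadd, hadd]
            _ = (v + E) + E := by rw [hk _ h6, hk _ h6, hhhE]
            _ = v := e1.symm
  obtain ⟨k, hk⟩ := main d le_rfl
  exact ⟨k, fun v => hk v (top_le_d v)⟩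

end

/-- a good colouring of an abelian group -/
def Good {V : Type} [AddCommGroup V] (c : V → Fin 3) : Prop :=
  (∃ i j, Nat.card {v // c v = i} ≠ Nat.card {v // c v = j}) ∧
  ∀ (a : V) (φ : V ≃+ V), (∀ v, c (a + φ v) = c v) →
    ∃ k : ℕ, ∀ v, (fun v => a + φ v)^[2 ^ k] v = v

theorem sizes_of_not_dvd {V : Type} [Finite V] (c : V → Fin 3) (h : ¬ 3 ∣ Nat.card V) :
    ∃ i j, Nat.card {v // c v = i} ≠ Nat.card {v // c v = j} := by
  by_contra hcon
  push Not at hcon
  apply h
  have h1 : Nat.card V = ∑ i : Fin 3, Nat.card {v // c v = i} := by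
    rw [← Nat.card_sigma]
    exact Nat.card_congr (Equiv.sigmaFiberEquiv c).symm
  rw [h1]
  refine ⟨Nat.card {v // c v = 0}, ?_⟩
  rw [Finset.sum_congr rfl (fun i _ => hcon i 0)]
  simp

theorem zmod3 : ∀ x : ZMod 3, x ≠ 0 → x = 1 ∨ x = -1 := by decide

theorem good_two {d : ℕ} : ∃ c : (Fin d → ZMod 2) → Fin 3, Good c := by
  refine ⟨colF, ?_, fun a φ h => flag_unip a φ h⟩
  apply sizes_of_not_dvd
  intro h
  rw [Nat.card_eq_fintype_card, Fintype.card_fun, ZMod.card, Fintype.card_fin] at h
  have := Nat.Prime.dvd_of_dvd_pow Nat.prime_three h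
  omega

open Classical in
theorem good_odd {p d : ℕ} [Fact p.Prime] (hp : p ≠ 2) (hd : 0 < d) :
    ∃ c : (Fin d → ZMod p) → Fin 3, Good c := by
  have hpp : p.Prime := Fact.out
  have h2 : (2 : ZMod p) ≠ 0 := by
    intro h
    have h1 : ((2 : ℕ) : ZMod p) = 0 := by exact_mod_cast h
    rw [ZMod.natCast_eq_zero_iff] at h1
    exact hp ((Nat.prime_dvd_prime_iff_eq hpp Nat.prime_two).1 h1)
  have hcardV : Nat.card (Fin d → ZMod p) = p ^ d := by
    rw [Nat.card_eq_fintype_card, Fintype.card_fun, ZMod.card, Fintype.card_fin]
  by_cases hs : p = 3 ∧ d = 1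
  · obtain ⟨rfl, rfl⟩ := hs
    refine ⟨fun v => if v = 0 then 0 else 1, ⟨0, 2, ?_⟩, ?_⟩
    · have e1 : Nat.card {v : Fin 1 → ZMod 3 // (if v = 0 then (0 : Fin 3) else 1) = 2} = 0 := by
        have : IsEmpty {v : Fin 1 → ZMod 3 // (if v = 0 then (0 : Fin 3) else 1) = 2} := by
          constructor
          rintro ⟨v, hv⟩
          by_cases h : v = 0
          · rw [if_pos h] at hv
            exact absurd hv (by decide)
          · rw [if_neg h] at hv
            exact absurd hv (by decide)
        exact Nat.card_of_isEmpty
      have e2 : 0 < Nat.card {v : Fin 1 → ZMod 3 // (if v = 0 then (0 : Fin 3) else 1) = 0} := by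
        have : Nonempty {v : Fin 1 → ZMod 3 // (if v = 0 then (0 : Fin 3) else 1) = 0} :=
          ⟨⟨0, if_pos rfl⟩⟩
        exact Nat.card_pos
      rw [e1]
      exact e2.ne'
    · intro a φ hc
      have ha : a = 0 := by
        have h1 := hc 0
        simp only [map_zero, add_zero, if_true] at h1
        by_contra h
        rw [if_neg h] at h1
        exact absurd h1 (by decide)
      subst ha
      have hφ : (fun v => (0 : Fin 1 → ZMod 3) + φ v) = ⇑φ := by
        funext v
        rw [zero_add]
      rw [hφ]
      refine ⟨1, ?_⟩
      have h3 := zmod3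
      have hE : φ (e 3 0) ≠ 0 := by
        intro h
        have h0 := φ.injective (h.trans (map_zero φ).symm)
        have := congrFun h0 0
        rw [e_apply, if_pos rfl] at this
        exact one_ne_zero this
      have hE' : φ (e 3 0) = e 3 0 ∨ φ (e 3 0) = -e 3 0 := by
        have h4 : (φ (e 3 0)) 0 ≠ 0 := by
          intro h
          apply hE
          funext i
          rw [Subsingleton.elim i 0]
          exact h
        rcases h3 _ h4 with h | h
        · left
          funext i
          rw [Subsingleton.elim i 0, h, e_apply, if_pos rfl]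
        · right
          funext i
          rw [Subsingleton.elim i 0, h, Pi.neg_apply, e_apply, if_pos rfl]
      have h5 : φ (φ (e 3 0)) = e 3 0 := by
        rcases hE' with h | h
        · rw [h, h]
        · rw [h, map_neg, h, neg_neg]
      intro v
      have := ext_e ((φ : (Fin 1 → ZMod 3) →+ (Fin 1 → ZMod 3)).comp
        (φ : (Fin 1 → ZMod 3) →+ (Fin 1 → ZMod 3))) (AddMonoidHom.id _) (by
          intro i
          rw [Subsingleton.elim i 0]
          exact h5) v
      exact this
  · -- the main colouring
    have hB0 : ¬ B p (0 : Fin d → ZMod p) := by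
      rintro (⟨i, hi⟩ | ⟨i, j, hij, h⟩)
      · have := congrFun hi i
        rw [e_apply, if_pos rfl] at this
        exact one_ne_zero this.symm
      · have hne : i ≠ j := fun h' => by rw [h'] at hij; omega
        have := congrFun h i
        rw [Pi.add_apply, e_apply, e_apply, if_pos rfl, if_neg hne, add_zero] at this
        exact one_ne_zero this.symm
    set c : (Fin d → ZMod p) → Fin 3 := fun v => if v = 0 then 0 else if B p v then 1 else 2
      with hcdef
    have c0 : ∀ v, c v = 0 ↔ v = 0 := by
      intro v
      simp only [hcdef]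
      by_cases h : v = 0
      · simp [h]
      · by_cases h' : B p v <;> simp [h, h']
    have c1 : ∀ v, c v = 1 ↔ B p v := by
      intro v
      simp only [hcdef]
      by_cases h : v = 0
      · subst h
        simp [hB0]
      · by_cases h' : B p v <;> simp [h, h']
    refine ⟨c, ?_, ?_⟩
    · by_cases h3 : p = 3
      · subst h3
        have hd2 : 2 ≤ d := by
          by_contra h
          exact hs ⟨rfl, by omega⟩
        refine ⟨0, 1, ?_⟩
        have e0 : Nat.card {v // c v = 0} ≤ 1 := by
          rw [Finite.card_le_one_iff_subsingleton]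
          constructor
          rintro ⟨v, hv⟩ ⟨w, hw⟩
          rw [Subtype.mk.injEq, (c0 v).1 hv, (c0 w).1 hw]
        have e1 : 1 < Nat.card {v // c v = 1} := by
          rw [Finite.one_lt_card_iff_nontrivial]
          refine ⟨⟨⟨e 3 ⟨0, by omega⟩, (c1 _).2 (Or.inl ⟨_, rfl⟩)⟩,
            ⟨e 3 ⟨1, by omega⟩, (c1 _).2 (Or.inl ⟨_, rfl⟩)⟩, ?_⟩⟩
          intro h
          rw [Subtype.mk.injEq] at h
          have := e_inj (p := 3) h
          exact absurd (congrArg Fin.val this) (by simp)
        omega
      · apply sizes_of_not_dvd
        intro h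
        rw [hcardV] at h
        have := Nat.Prime.dvd_of_dvd_pow Nat.prime_three h
        exact h3 ((Nat.prime_dvd_prime_iff_eq Nat.prime_three hpp).1 this).symm
    · intro a φ hc
      have ha : a = 0 := by
        have h1 := hc 0
        rw [map_zero, add_zero, (c0 0).2 rfl] at h1
        exact (c0 a).1 h1
      subst ha
      have hφ : (fun v => (0 : Fin d → ZMod p) + φ v) = ⇑φ := by
        funext v
        rw [zero_add]
      rw [hφ]
      refine ⟨1, fun v => ?_⟩
      have hB : ∀ v, B p (φ v) ↔ B p v := by
        intro v
        have h1 := hc v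
        rw [zero_add] at h1
        rw [← c1, ← c1, h1]
      exact sq_eq h2 φ hB v

end Pool.Agent.R721.SC
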