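import Pool.Agent.R721.SC.Prim

set_option autoImplicit false

open MulAction

namespace Pool.Agent.R721.SC

/-- class sizes force the shift to vanish -/
theorem shift_zero {Y : Type} [Finite Y] (c : Y → Fin 3)
    (hc : ∃ i j, Nat.card {v // c v = i} ≠ Nat.card {v // c v = j}) (σ : Y ≃ Y) (δ : Fin 3)
    (h : ∀ y, c (σ y) = c y + δ) : δ = 0 := by
  by_contra hδ
  have h1 : ∀ i, Nat.card {v // c v = i} = Nat.card {v // c v = i + δ} := by
    intro i
    apply Nat.card_congr
    refine σ.subtypeEquiv (fun y => ?_)
    rw [h y]
    exact (add_left_inj δ).symm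
  obtain ⟨i, j, hij⟩ := hc
  apply hij
  have h2 : ∀ i, Nat.card {v // c v = i} = Nat.card {v // c v = 0} := by
    have a1 := h1 0
    have a2 := h1 (0 + δ)
    intro i
    have h3 : ∀ (δ i : Fin 3), δ ≠ 0 → i = 0 ∨ i = 0 + δ ∨ i = 0 + δ + δ := by decide
    rcases h3 δ i hδ with h4 | h4 | h4
    · rw [h4]
    · rw [h4, ← a1]
    · rw [h4, ← a2, ← a1]
  rw [h2 i, h2 j]

/-- coset actions of soluble groups -/
theorem coset {G : Type} [Group G] [Finite G] [Group.IsSolvable G] :
    ∀ (n : ℕ) (U : Subgroup G), U.index ≤ n →
      ∃ γ : G ⧸ U → Fin 3, ∀ g : G, (∀ x, γ (g • x) = γ x) →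
        ∃ k : ℕ, ∀ x : G ⧸ U, g ^ (2 ^ k) • x = x := by
  intro n
  induction n with
  | zero =>
      intro U hU
      exact absurd (Nat.le_zero.1 hU) Subgroup.index_ne_zero_of_finite
  | succ n ih =>
      intro U hU
      by_cases hT : U = ⊤
      · refine ⟨fun _ => 0, fun g _ => ⟨0, fun x => ?_⟩⟩
        have h1 : Nat.card (G ⧸ U) = 1 := Subgroup.index_eq_one.2 hT
        exact (Nat.card_eq_one_iff_unique.1 h1).1.elim _ _
      · -- a minimal overgroup
        have hmax : ¬ IsMax U := fun h => hT (isMax_iff_eq_top.1 h)
        obtain ⟨S, hS⟩ := exists_covBy_of_wellFoundedLT hmax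
        have hle : U ≤ S := hS.le
        have hidx : S.index ≤ n := by
          have h1 : U.relIndex S * S.index = U.index := Subgroup.relIndex_mul_index hle
          have h2 : U.relIndex S ≠ 1 := by
            intro h
            rw [Subgroup.relIndex_eq_one] at h
            exact absurd h hS.lt.not_ge
          have h3 : U.relIndex S ≠ 0 := Subgroup.index_ne_zero_of_finite
          have h4 : S.index ≠ 0 := Subgroup.index_ne_zero_of_finite
          have h5 : 2 ≤ U.relIndex S := by omega
          nlinarith [Nat.pos_of_ne_zero h4]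
        obtain ⟨κ, hκ⟩ := ih S hidx
        have hco : IsCoatom (U.subgroupOf S) := by
          constructor
          · intro h
            rw [Subgroup.subgroupOf_eq_top] at h
            exact absurd h hS.lt.not_ge
          · intro T hUT
            have h1 : U < T.map S.subtype := by
              have h2 : (U.subgroupOf S).map S.subtype < T.map S.subtype :=
                (Subgroup.map_lt_map_iff_of_injective S.subtype_injective).2 hUT
              rwa [Subgroup.map_subgroupOf_eq_of_le hle] at h2
            have h2 : T.map S.subtype ≤ S := Subgroup.map_subtype_le T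
            rcases h2.lt_or_eq with h3 | h3
            · exact absurd h3 (hS.2 h1)
            · rw [eq_top_iff]
              intro x _
              have h4 : (x : G) ∈ T.map S.subtype := by rw [h3]; exact x.2
              obtain ⟨y, hy, hyx⟩ := h4
              have : y = x := Subtype.ext hyx
              rwa [this] at hy
        obtain ⟨c, hc1, hc2⟩ := prim_quot (U.subgroupOf S) hco
        let r : G ⧸ S → G := Quotient.out
        have hr : Function.RightInverse r (QuotientGroup.mk : G → G ⧸ S) :=
          fun q => QuotientGroup.out_eq' q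
        let E := Subgroup.quotientEquivProdOfLE' hle r hr
        have hsm : ∀ (g : G) (q : G ⧸ S), (r (g • q))⁻¹ * g * r q ∈ S := by
          intro g q
          rw [mul_assoc, ← QuotientGroup.eq, hr]
          show g • q = ((g * r q : G) : G ⧸ S)
          rw [← smul_eq_mul, ← MulAction.Quotient.smul_coe, hr]
        let sm : G → G ⧸ S → S := fun g q => ⟨(r (g • q))⁻¹ * g * r q, hsm g q⟩
        have hE : ∀ (g : G) (x : G ⧸ U), E (g • x) = (g • (E x).1, sm g (E x).1 • (E x).2) := by
          intro g x
          induction x using QuotientGroup.induction_on with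
          | H h =>
              have e1 : E ((h : G) : G ⧸ U) = (((h : G) : G ⧸ S),
                  ((⟨(r ((h : G) : G ⧸ S))⁻¹ * h, QuotientGroup.eq.1 (hr _)⟩ : S) :
                    S ⧸ U.subgroupOf S)) := rfl
              have e2 : E (g • ((h : G) : G ⧸ U)) = (((g * h : G) : G ⧸ S),
                  ((⟨(r ((g * h : G) : G ⧸ S))⁻¹ * (g * h), QuotientGroup.eq.1 (hr _)⟩ : S) :
                    S ⧸ U.subgroupOf S)) := rfl
              rw [e1, e2]
              refine Prod.ext rfl (congrArg (QuotientGroup.mk : S → S ⧸ U.subgroupOf S)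
                (Subtype.ext ?_))
              show (r ((g * h : G) : G ⧸ S))⁻¹ * (g * h) =
                (r (g • ((h : G) : G ⧸ S)))⁻¹ * g * r ((h : G) : G ⧸ S) *
                  ((r ((h : G) : G ⧸ S))⁻¹ * h)
              have e3 : g • ((h : G) : G ⧸ S) = ((g * h : G) : G ⧸ S) := rfl
              rw [e3]
              group
        refine ⟨fun x => κ (E x).1 + c (E x).2, fun g hg => ?_⟩
        -- the first coordinate is preserved
        have key : ∀ g : G, (∀ x : G ⧸ U, κ (E (g • x)).1 + c (E (g • x)).2
            = κ (E x).1 + c (E x).2) → ∀ q, κ (g • q) = κ q := by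
          intro g hg q
          have h1 : ∀ y, c (sm g q • y) = c y + (κ q - κ (g • q)) := by
            intro y
            have h2 := hg (E.symm (q, y))
            rw [hE, E.apply_symm_apply] at h2
            rw [add_sub, eq_sub_iff_add_eq, add_comm (c (sm g q • y)), add_comm (c y)]
            exact h2
          have h3 := shift_zero c hc1 (MulAction.toPerm (sm g q)) _ h1
          exact (sub_eq_zero.1 h3).symm
        obtain ⟨k, hk⟩ := hκ g (key g hg)
        set h := g ^ (2 ^ k) with hh
        have hpow : ∀ m : ℕ, ∀ x : G ⧸ U, κ (E (g ^ m • x)).1 + c (E (g ^ m • x)).2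
            = κ (E x).1 + c (E x).2 := by
          intro m
          induction m with
          | zero => intro x; rw [pow_zero, one_smul]
          | succ m ihm =>
              intro x
              rw [pow_succ', mul_smul]
              exact (hg _).trans (ihm x)
        have hhx := hpow (2 ^ k)
        rw [← hh] at hhx
        have hfix : ∀ (m : ℕ) (q : G ⧸ S), h ^ m • q = q := by
          intro m q
          induction m with
          | zero => rw [pow_zero, one_smul]
          | succ m ihm => rw [pow_succ', mul_smul, ihm, hk]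
        have hsp : ∀ (m : ℕ) (q : G ⧸ S), sm (h ^ m) q = (sm h q) ^ m := by
          intro m q
          induction m with
          | zero =>
              rw [pow_zero (sm h q)]
              apply Subtype.ext
              show (r (h ^ 0 • q))⁻¹ * h ^ 0 * r q = 1
              rw [hfix, pow_zero, mul_one, inv_mul_cancel]
          | succ m ihm =>
              rw [pow_succ (sm h q) m, ← ihm]
              apply Subtype.ext
              show (r (h ^ (m + 1) • q))⁻¹ * h ^ (m + 1) * r q =
                ((r (h ^ m • q))⁻¹ * h ^ m * r q) * ((r (h • q))⁻¹ * h * r q)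
              rw [hfix, hfix, show h • q = q from hk q, pow_succ]
              group
        have hq : ∀ q : G ⧸ S, ∃ m : ℕ, ∀ y : S ⧸ U.subgroupOf S,
            (sm h q) ^ (2 ^ m) • y = y := by
          intro q
          apply hc2
          intro y
          have h2 := hhx (E.symm (q, y))
          rw [hE, E.apply_symm_apply] at h2
          have h3 : h • q = q := hk q
          simp only at h2
          rw [h3] at h2
          exact add_left_cancel h2
        choose mq hmq using hq
        have := Fintype.ofFinite (G ⧸ S)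
        let K : ℕ := ∑ q, mq q
        refine ⟨k + K, fun x => ?_⟩
        have e1 : g ^ (2 ^ (k + K)) = h ^ (2 ^ K) := by
          rw [hh, ← pow_mul, ← pow_add]
        rw [e1]
        apply E.injective
        rw [hE, hfix, hsp]
        refine Prod.ext rfl ?_
        show (sm h (E x).1) ^ (2 ^ K) • (E x).2 = (E x).2
        have e2 : mq (E x).1 ≤ K := Finset.single_le_sum (f := mq)
          (fun _ _ => Nat.zero_le _) (Finset.mem_univ _)
        obtain ⟨t, ht⟩ := Nat.exists_eq_add_of_le e2
        have e3 : (sm h (E x).1) ^ (2 ^ K) = ((sm h (E x).1) ^ (2 ^ mq (E x).1)) ^ (2 ^ t) := by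
          rw [← pow_mul, ← pow_add, ht]
        rw [e3]
        have e4 : ∀ n : ℕ, ((sm h (E x).1) ^ (2 ^ mq (E x).1)) ^ n • (E x).2 = (E x).2 := by
          intro n
          induction n with
          | zero => rw [pow_zero, one_smul]
          | succ n ihn => rw [pow_succ', mul_smul, ihn, hmq]
        exact e4 _

/-- arbitrary actions of soluble groups -/
theorem action {G X : Type} [Group G] [Finite G] [Group.IsSolvable G] [MulAction G X] [Finite X] :
    ∃ γ : X → Fin 3, ∀ g : G, (∀ x, γ (g • x) = γ x) →
      ∃ k : ℕ, ∀ x : X, g ^ (2 ^ k) • x = x := by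
  classical
  have h1 : ∀ x : X, ∃ γ : G ⧸ stabilizer G x → Fin 3, ∀ g : G, (∀ y, γ (g • y) = γ y) →
      ∃ k : ℕ, ∀ y : G ⧸ stabilizer G x, g ^ (2 ^ k) • y = y :=
    fun x => coset _ (stabilizer G x) le_rfl
  choose Γ hΓ using h1
  let rep : X → X := fun x => (Quotient.mk (orbitRel G X) x).out
  have hrep : ∀ x, ∃ g : G, g • rep x = x := by
    intro x
    have h2 : (orbitRel G X) (rep x) x := Quotient.mk_out (s := orbitRel G X) x
    have h3 : (orbitRel G X) x (rep x) := (orbitRel G X).symm h2
    exact h3
  have hrepg : ∀ (g : G) x, rep (g • x) = rep x := by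
    intro g x
    have h2 : (Quotient.mk (orbitRel G X) (g • x)) = Quotient.mk (orbitRel G X) x :=
      Quotient.sound ⟨g, rfl⟩
    show (Quotient.mk (orbitRel G X) (g • x)).out = (Quotient.mk (orbitRel G X) x).out
    rw [h2]
  choose s hs using hrep
  let γ : X → Fin 3 := fun x => Γ (rep x) ((s x : G) : G ⧸ stabilizer G (rep x))
  have hγ : ∀ (x w : X) (h : G), rep x = w → h • w = x →
      γ x = Γ w ((h : G) : G ⧸ stabilizer G w) := by
    intro x w h hw hx
    subst hw
    show Γ (rep x) _ = Γ (rep x) _
    congr 1
    rw [QuotientGroup.eq, mem_stabilizer_iff, mul_smul, hx, inv_smul_eq_iff, hs]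
  refine ⟨γ, fun g hg => ?_⟩
  have h2 : ∀ w : X, rep w = w → ∃ k : ℕ, ∀ y : G ⧸ stabilizer G w, g ^ (2 ^ k) • y = y := by
    intro w hw
    apply hΓ
    intro y
    induction y using QuotientGroup.induction_on with
    | H h =>
        have e1 := hγ (h • w) w h (by rw [hrepg, hw]) rfl
        have e2 := hγ (g • h • w) w (g * h) (by rw [hrepg, hrepg, hw]) (mul_smul g h w)
        rw [hg, e1] at e2
        exact e2.symm
  have h3 : ∀ w : X, ∃ k : ℕ, rep w = w → ∀ y : G ⧸ stabilizer G w, g ^ (2 ^ k) • y = y := by
    intro w
    by_cases hw : rep w = w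
    · obtain ⟨k, hk⟩ := h2 w hw
      exact ⟨k, fun _ => hk⟩
    · exact ⟨0, fun h => absurd h hw⟩
  choose m hm using h3
  have := Fintype.ofFinite X
  let K : ℕ := ∑ w, m w
  refine ⟨K, fun x => ?_⟩
  have hidem : rep (rep x) = rep x := by
    have h4 := hrepg (s x) (rep x)
    rw [hs x] at h4
    exact h4.symm
  have e2 : m (rep x) ≤ K := Finset.single_le_sum (f := m)
    (fun _ _ => Nat.zero_le _) (Finset.mem_univ _)
  obtain ⟨t, ht⟩ := Nat.exists_eq_add_of_le e2
  have e3 : g ^ (2 ^ K) = (g ^ (2 ^ m (rep x))) ^ (2 ^ t) := by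
    rw [← pow_mul, ← pow_add, ht]
  have e4 : ∀ n : ℕ, (g ^ (2 ^ m (rep x))) ^ n • ((s x : G) : G ⧸ stabilizer G (rep x))
      = ((s x : G) : G ⧸ stabilizer G (rep x)) := by
    intro n
    induction n with
    | zero => rw [pow_zero, one_smul]
    | succ n ihn => rw [pow_succ', mul_smul, ihn, hm (rep x) hidem]
  have e5 := e4 (2 ^ t)
  rw [← e3] at e5
  have e6 : ((g ^ (2 ^ K) * s x : G) : G ⧸ stabilizer G (rep x)) = ((s x : G) : _) := e5
  rw [QuotientGroup.eq, mem_stabilizer_iff, mul_smul, inv_smul_eq_iff, hs x, mul_smul,
    hs x] at e6 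
  exact e6.symm

end Pool.Agent.R721.SC
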