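import Mathlib

set_option autoImplicit false

namespace Pool.Agent.R721.SC

/-- an injective self-map of a path preserving adjacency is an involution -/
theorem path_aut {d : ℕ} (π : Fin d → Fin d) (hinj : Function.Injective π)
    (h : ∀ i j : Fin d, i.val + 1 = j.val →
      (π i).val + 1 = (π j).val ∨ (π j).val + 1 = (π i).val) (i : Fin d) : π (π i) = i := by
  have hsurj : Function.Surjective π := Finite.surjective_of_injective hinj
  have hd : 0 < d := i.pos
  -- Lipschitz
  have lip : ∀ n : ℕ, ∀ a b : Fin d, a.val + n = b.val →
      (π a).val ≤ (π b).val + n ∧ (π b).val ≤ (π a).val + n := by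
    intro n
    induction n with
    | zero =>
        intro a b hab
        have : a = b := Fin.ext (by simpa using hab)
        subst this
        simp
    | succ n ih =>
        intro a b hab
        have hb : b.val - 1 < d := lt_of_le_of_lt (Nat.sub_le _ _) b.isLt
        obtain ⟨h1, h2⟩ := ih a ⟨b.val - 1, hb⟩ (by simp; omega)
        have h3 := h ⟨b.val - 1, hb⟩ b (by simp; omega)
        omega
  have lip' : ∀ a b : Fin d, (π a).val ≤ (π b).val + (b.val - a.val) + (a.val - b.val) := by
    intro a b
    rcases le_total a.val b.val with hab | hab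
    · have := (lip (b.val - a.val) a b (by omega)).1
      omega
    · have := (lip (a.val - b.val) b a (by omega)).2
      omega
  obtain ⟨a, ha⟩ := hsurj ⟨0, hd⟩
  obtain ⟨b, hb⟩ := hsurj ⟨d - 1, by omega⟩
  have ha' : (π a).val = 0 := by rw [ha]
  have hb' : (π b).val = d - 1 := by rw [hb]
  have h1 := lip' b a
  have ha2 := a.isLt
  have hb2 := b.isLt
  have key : (∀ c : Fin d, (π c).val = c.val) ∨ (∀ c : Fin d, (π c).val = d - 1 - c.val) := by
    rcases le_total a.val b.val with hab | hab
    · left
      intro c
      have h2 := lip' c a
      have h3 := lip' b c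
      have hc := c.isLt
      omega
    · right
      intro c
      have h2 := lip' c a
      have h3 := lip' b c
      have hc := c.isLt
      omega
  apply Fin.ext
  rcases key with hk | hk
  · rw [hk, hk]
  · rw [hk, hk]
    have := i.isLt
    omega

section odd

variable {p d : ℕ} [Fact p.Prime]

/-- the basis vectors -/
abbrev e (p : ℕ) {d : ℕ} (i : Fin d) : Fin d → ZMod p := Pi.single i 1

/-- the marked set -/
def B (p : ℕ) {d : ℕ} (v : Fin d → ZMod p) : Prop :=
  (∃ i, v = e p i) ∨ (∃ i j : Fin d, i.val + 1 = j.val ∧ v = e p i + e p j)

theorem e_apply (i j : Fin d) : e p i j = if j = i then 1 else 0 := by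
  simp [e, Pi.single_apply]

theorem sum_e (i : Fin d) : ∑ k, e p i k = 1 := by
  simp [e]

theorem adj (h2 : (2 : ZMod p) ≠ 0) {x y : Fin d → ZMod p} (hx : B p x) (hy : B p y)
    (hxy : B p (x + y)) :
    ∃ i j : Fin d, i.val + 1 = j.val ∧ ((x = e p i ∧ y = e p j) ∨ (x = e p j ∧ y = e p i)) := by
  have h1 : (1 : ZMod p) ≠ 0 := one_ne_zero
  have e1 : ∀ i j : Fin d, e p i j = if j = i then 1 else 0 := fun i j => e_apply i j
  rcases hx with ⟨i, rfl⟩ | ⟨i, i', hi, rfl⟩
  · rcases hy with ⟨j, rfl⟩ | ⟨j, j', hj, rfl⟩
    · rcases hxy with ⟨k, hk⟩ | ⟨k, k', hk', hk⟩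
      · exfalso
        have hs := congrArg (fun v : Fin d → ZMod p => ∑ t, v t) hk
        simp only [Pi.add_apply, Finset.sum_add_distrib, sum_e] at hs
        exact h1 (by linear_combination hs)
      · have hkk : k ≠ k' := fun h => by rw [h] at hk'; omega
        have c1 := congrFun hk k
        have c2 := congrFun hk k'
        simp only [Pi.add_apply, e1, if_true, if_neg hkk, if_neg hkk.symm] at c1 c2
        refine ⟨k, k', hk', ?_⟩
        by_cases a1 : k = i <;> by_cases a2 : k = j <;> by_cases a3 : k' = i <;>
          by_cases a4 : k' = j <;> simp only [a1, a2, a3, a4, if_true, if_false] at c1 c2 <;>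
          first
          | (exfalso; exact h1 (by linear_combination -c1))
          | (exfalso; exact h1 (by linear_combination -c2))
          | (exfalso; exact hkk (a1.trans a3.symm))
          | (exfalso; exact hkk (a2.trans a4.symm))
          | (left; exact ⟨by rw [a1], by rw [a4]⟩)
          | (right; exact ⟨by rw [a3], by rw [a2]⟩)
    · exfalso
      rcases hxy with ⟨k, hk⟩ | ⟨k, k', hk', hk⟩
      · have hs := congrArg (fun v : Fin d → ZMod p => ∑ t, v t) hk
        simp only [Pi.add_apply, Finset.sum_add_distrib, sum_e] at hs
        exact h2 (by linear_combination hs)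
      · have hs := congrArg (fun v : Fin d → ZMod p => ∑ t, v t) hk
        simp only [Pi.add_apply, Finset.sum_add_distrib, sum_e] at hs
        exact h1 (by linear_combination hs)
  · exfalso
    rcases hy with ⟨j, rfl⟩ | ⟨j, j', hj, rfl⟩
    · rcases hxy with ⟨k, hk⟩ | ⟨k, k', hk', hk⟩
      · have hs := congrArg (fun v : Fin d → ZMod p => ∑ t, v t) hk
        simp only [Pi.add_apply, Finset.sum_add_distrib, sum_e] at hs
        exact h2 (by linear_combination hs)
      · have hs := congrArg (fun v : Fin d → ZMod p => ∑ t, v t) hk
        simp only [Pi.add_apply, Finset.sum_add_distrib, sum_e] at hs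
        exact h1 (by linear_combination hs)
    · rcases hxy with ⟨k, hk⟩ | ⟨k, k', hk', hk⟩
      · -- two nonzero coordinates
        have hii : i ≠ i' := fun h => by rw [h] at hi; omega
        have hjj : j ≠ j' := fun h => by rw [h] at hj; omega
        rcases le_total i.val j.val with hij | hij
        · have hij' : i ≠ j' := fun h => by rw [h] at hij; omega
          have c1 := congrFun hk i
          have c2 := congrFun hk j'
          simp only [Pi.add_apply, e1, if_true, if_neg hii, if_neg hij', if_neg hij'.symm,
            if_neg hjj.symm] at c1 c2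
          have k1 : i = k := by
            by_contra hne
            rw [if_neg hne] at c1
            by_cases a : i = j
            · rw [if_pos a] at c1
              exact h2 (by linear_combination c1)
            · rw [if_neg a] at c1
              exact h1 (by linear_combination c1)
          have k2 : j' = k := by
            by_contra hne
            rw [if_neg hne] at c2
            by_cases a : j' = i'
            · rw [if_pos a] at c2
              exact h2 (by linear_combination c2)
            · rw [if_neg a] at c2
              exact h1 (by linear_combination c2)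
          exact hij' (k1.trans k2.symm)
        · have hij' : j ≠ i' := fun h => by rw [h] at hij; omega
          have c1 := congrFun hk j
          have c2 := congrFun hk i'
          simp only [Pi.add_apply, e1, if_true, if_neg hjj, if_neg hij', if_neg hij'.symm,
            if_neg hii.symm] at c1 c2
          have k1 : j = k := by
            by_contra hne
            rw [if_neg hne] at c1
            by_cases a : j = i
            · rw [if_pos a] at c1
              exact h2 (by linear_combination c1)
            · rw [if_neg a] at c1
              exact h1 (by linear_combination c1)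
          have k2 : i' = k := by
            by_contra hne
            rw [if_neg hne] at c2
            by_cases a : i' = j'
            · rw [if_pos a] at c2
              exact h2 (by linear_combination c2)
            · rw [if_neg a] at c2
              exact h1 (by linear_combination c2)
          exact hij' (k1.trans k2.symm)
      · have hs := congrArg (fun v : Fin d → ZMod p => ∑ t, v t) hk
        simp only [Pi.add_apply, Finset.sum_add_distrib, sum_e] at hs
        exact h2 (by linear_combination hs)

theorem e_inj : Function.Injective (fun i : Fin d => e p i) := by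
  intro i j h
  have := congrFun h i
  simp only [e_apply, if_true] at this
  by_contra hne
  rw [if_neg hne] at this
  exact one_ne_zero this

/-- additive maps agreeing on the basis vectors agree -/
theorem ext_e (f g : (Fin d → ZMod p) →+ (Fin d → ZMod p)) (h : ∀ i, f (e p i) = g (e p i))
    (v : Fin d → ZMod p) : f v = g v := by
  have h1 : f.toZModLinearMap p = g.toZModLinearMap p := by
    apply (Pi.basisFun (ZMod p) (Fin d)).ext
    intro i
    simpa [e] using h i
  exact congrArg (fun F : (Fin d → ZMod p) →ₗ[ZMod p] (Fin d → ZMod p) => F v) h1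

/-- additive automorphisms preserving the marked set are involutions, for odd primes -/
theorem sq_eq (h2 : (2 : ZMod p) ≠ 0) (g : (Fin d → ZMod p) ≃+ (Fin d → ZMod p))
    (hg : ∀ v, B p (g v) ↔ B p v) (v : Fin d → ZMod p) : g (g v) = v := by
  -- images of consecutive basis vectors
  have hadj : ∀ i j : Fin d, i.val + 1 = j.val → ∃ i' j' : Fin d, i'.val + 1 = j'.val ∧
      ((g (e p i) = e p i' ∧ g (e p j) = e p j') ∨ (g (e p i) = e p j' ∧ g (e p j) = e p i')) := by
    intro i j hij
    apply adj h2
    · exact (hg _).2 (Or.inl ⟨i, rfl⟩)
    · exact (hg _).2 (Or.inl ⟨j, rfl⟩)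
    · rw [← map_add]
      exact (hg _).2 (Or.inr ⟨i, j, hij, rfl⟩)
  have hA : ∀ i : Fin d, ∃ j : Fin d, g (e p i) = e p j := by
    intro i
    by_cases h : i.val + 1 < d
    · obtain ⟨i', j', -, h1 | h1⟩ := hadj i ⟨i.val + 1, h⟩ rfl
      · exact ⟨i', h1.1⟩
      · exact ⟨j', h1.1⟩
    · by_cases h0 : 0 < i.val
      · have hi : i.val - 1 < d := lt_of_le_of_lt (Nat.sub_le _ _) i.isLt
        obtain ⟨i', j', -, h1 | h1⟩ := hadj ⟨i.val - 1, hi⟩ i (by simp; omega)
        · exact ⟨j', h1.2⟩
        · exact ⟨i', h1.2⟩
      · rcases (hg (e p i)).2 (Or.inl ⟨i, rfl⟩) with ⟨j, hj⟩ | ⟨j, k, hjk, -⟩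
        · exact ⟨j, hj⟩
        · exfalso
          have := k.isLt
          omega
  choose π hπ using hA
  have hinj : Function.Injective π := by
    intro i j hij
    apply e_inj (p := p)
    apply g.injective
    show g (e p i) = g (e p j)
    rw [hπ, hπ, hij]
  have hpath := path_aut π hinj (by
    intro i j hij
    obtain ⟨i', j', h0, h1 | h1⟩ := hadj i j hij
    · rw [hπ, hπ] at h1
      have a1 := e_inj (p := p) h1.1
      have a2 := e_inj (p := p) h1.2
      rw [a1, a2]
      exact Or.inl h0
    · rw [hπ, hπ] at h1
      have a1 := e_inj (p := p) h1.1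
      have a2 := e_inj (p := p) h1.2
      rw [a1, a2]
      exact Or.inr h0)
  have := ext_e ((g : (Fin d → ZMod p) →+ (Fin d → ZMod p)).comp
    (g : (Fin d → ZMod p) →+ (Fin d → ZMod p))) (AddMonoidHom.id _) (by
      intro i
      show g (g (e p i)) = e p i
      rw [hπ, hπ, hpath]) v
  exact this

end odd

end Pool.Agent.R721.SC
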