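import Pool.Agent.R721.SC.Flag

set_option autoImplicit false

open MulAction
open scoped commutatorElement

namespace Pool.Agent.R721.SC

/-- good colourings of vector spaces over prime fields -/
theorem good_space' {V : Type} [AddCommGroup V] [Finite V] [Nontrivial V] (p : ℕ)
    [hp : Fact p.Prime] [Module (ZMod p) V] : ∃ c : V → Fin 3, Good c := by
  have : Module.Finite (ZMod p) V := Module.Finite.of_finite
  set d := Module.finrank (ZMod p) V with hd
  let L : V ≃ₗ[ZMod p] (Fin d → ZMod p) := (Module.finBasis (ZMod p) V).equivFun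
  have hd0 : 0 < d := by
    rw [Nat.pos_iff_ne_zero]
    intro h0
    obtain ⟨x, y, hxy⟩ := exists_pair_ne V
    apply hxy
    apply L.injective
    have : IsEmpty (Fin d) := by rw [h0]; exact Fin.isEmpty
    exact Subsingleton.elim _ _
  obtain ⟨c, ⟨i, j, hij⟩, hc⟩ : ∃ c : (Fin d → ZMod p) → Fin 3, Good c := by
    by_cases h2 : p = 2
    · subst h2
      exact good_two
    · exact good_odd h2 hd0
  refine ⟨fun v => c (L v), ⟨i, j, ?_⟩, ?_⟩
  · have e1 : ∀ i, Nat.card {v // c (L v) = i} = Nat.card {v // c v = i} := by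
      intro i
      exact Nat.card_congr (L.toEquiv.subtypeEquiv (fun v => Iff.rfl))
    rw [e1, e1]
    exact hij
  · intro a φ h
    obtain ⟨k, hk⟩ := hc (L a) ((L.symm.toAddEquiv.trans φ).trans L.toAddEquiv) (by
      intro v
      have h1 : c (L (a + φ (L.symm v))) = c (L (L.symm v)) := h (L.symm v)
      rw [map_add, L.apply_symm_apply] at h1
      exact h1)
    refine ⟨k, fun v => ?_⟩
    have hsemi : Function.Semiconj L (fun v => a + φ v)
        (fun v => L a + ((L.symm.toAddEquiv.trans φ).trans L.toAddEquiv) v) := by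
      intro v
      show L (a + φ v) = L a + L (φ (L.symm (L v)))
      rw [map_add, L.symm_apply_apply]
    have h2 := hsemi.iterate_right (2 ^ k) v
    rw [hk] at h2
    exact L.injective h2

/-- good colourings of elementary abelian groups -/
theorem good_space {V : Type} [AddCommGroup V] [Finite V] [Nontrivial V] (p : ℕ)
    [hp : Fact p.Prime] (hV : ∀ v : V, p • v = 0) : ∃ c : V → Fin 3, Good c :=
  @good_space' V _ _ _ p hp (AddCommGroup.zmodModule hV)

/-- primitive soluble groups -/
theorem prim {G X : Type} [Group G] [Finite G] [Group.IsSolvable G] [MulAction G X]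
    [FaithfulSMul G X] [IsPreprimitive G X] [Finite X] [Nontrivial X] :
    ∃ c : X → Fin 3, (∃ i j, Nat.card {v // c v = i} ≠ Nat.card {v // c v = j}) ∧
      ∀ g : G, (∀ x, c (g • x) = c x) → ∃ k : ℕ, ∀ x : X, g ^ (2 ^ k) • x = x := by
  classical
  -- a nontrivial abelian normal subgroup
  have hG : (⊤ : Subgroup G) ≠ ⊥ := by
    intro h
    obtain ⟨x, y, hxy⟩ := exists_pair_ne X
    obtain ⟨g, hg⟩ := exists_smul_eq G x y
    have h1 : g ∈ (⊥ : Subgroup G) := h ▸ Subgroup.mem_top g
    rw [Subgroup.mem_bot] at h1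
    rw [h1, one_smul] at hg
    exact hxy hg
  obtain ⟨n, hn⟩ := (Group.isSolvable_def G).1 inferInstance
  have hex : ∃ n, derivedSeries G n = ⊥ := ⟨n, hn⟩
  set m := Nat.find hex with hm
  have hm1 : derivedSeries G m = ⊥ := Nat.find_spec hex
  have hm0 : m ≠ 0 := by
    intro h
    rw [h, derivedSeries_zero] at hm1
    exact hG hm1
  obtain ⟨l, hl⟩ := Nat.exists_eq_succ_of_ne_zero hm0
  have hA : derivedSeries G l ≠ ⊥ := Nat.find_min hex (by omega)
  set A := derivedSeries G l with hAdef
  have hAn : A.Normal := derivedSeries_normal G l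
  have hAc : ∀ a ∈ A, ∀ b ∈ A, a * b = b * a := by
    intro a ha b hb
    have h1 : ⁅a, b⁆ ∈ derivedSeries G m := by
      rw [hl]
      show ⁅a, b⁆ ∈ ⁅derivedSeries G l, derivedSeries G l⁆
      exact Subgroup.commutator_mem_commutator ha hb
    rw [hm1, Subgroup.mem_bot] at h1
    exact commutatorElement_eq_one_iff_mul_comm.1 h1
  have hAcard : Nat.card A ≠ 1 := fun h => hA (Subgroup.card_eq_one.1 h)
  obtain ⟨p, hp, hpA⟩ := Nat.exists_prime_and_dvd hAcard
  have : Fact p.Prime := ⟨hp⟩
  -- the elementary abelian subgroup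
  let M : Subgroup G :=
    { carrier := {a | a ∈ A ∧ a ^ p = 1}
      mul_mem' := by
        rintro a b ⟨ha, ha'⟩ ⟨hb, hb'⟩
        refine ⟨A.mul_mem ha hb, ?_⟩
        have hc : Commute a b := hAc a ha b hb
        rw [hc.mul_pow, ha', hb', one_mul]
      one_mem' := ⟨A.one_mem, one_pow _⟩
      inv_mem' := by
        rintro a ⟨ha, ha'⟩
        exact ⟨A.inv_mem ha, by rw [inv_pow, ha', inv_one]⟩ }
  have hMn : M.Normal := by
    constructor
    rintro a ⟨ha, ha'⟩ g
    refine ⟨hAn.conj_mem a ha g, ?_⟩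
    rw [conj_pow, ha', mul_one, mul_inv_cancel]
  have hMc : ∀ a ∈ M, ∀ b ∈ M, a * b = b * a := fun a ha b hb => hAc a ha.1 b hb.1
  obtain ⟨a0, ha0⟩ := exists_prime_orderOf_dvd_card' p hpA
  have ha0M : (a0 : G) ∈ M := by
    refine ⟨a0.2, ?_⟩
    have h1 : a0 ^ p = 1 := by
      rw [← ha0]
      exact pow_orderOf_eq_one a0
    exact congrArg Subtype.val h1
  have ha0ne : (a0 : G) ≠ 1 := by
    intro h
    have h1 : a0 = 1 := Subtype.ext h
    rw [h1, orderOf_one] at ha0
    exact hp.one_lt.ne ha0
  have hMfix : fixedPoints M X ≠ Set.univ := by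
    intro h
    apply ha0ne
    apply eq_of_smul_eq_smul (α := X)
    intro x
    have h1 : x ∈ fixedPoints M X := by rw [h]; exact Set.mem_univ x
    rw [one_smul]
    exact h1 ⟨a0, ha0M⟩
  have : IsPretransitive M X := IsQuasiPreprimitive.isPretransitive_of_normal hMfix
  -- regularity
  have hreg : ∀ a ∈ M, ∀ x : X, a • x = x → a = 1 := by
    intro a ha x hx
    apply eq_of_smul_eq_smul (α := X)
    intro y
    obtain ⟨b, hb⟩ := exists_smul_eq M x y
    have hb' : (b : G) • x = y := hb
    rw [one_smul, ← hb', ← mul_smul, hMc a ha b b.2, mul_smul, hx]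
  obtain ⟨x0⟩ : Nonempty X := inferInstance
  let ev : M → X := fun a => (a : G) • x0
  have hev : Function.Bijective ev := by
    constructor
    · intro a b hab
      have h1 : ((b : G)⁻¹ * a) • x0 = x0 := by
        rw [mul_smul]
        have h2 : (a : G) • x0 = (b : G) • x0 := hab
        rw [h2, inv_smul_smul]
      have h3 := hreg _ (M.mul_mem (M.inv_mem b.2) a.2) x0 h1
      exact Subtype.ext (inv_mul_eq_one.1 h3).symm
    · intro x
      obtain ⟨b, hb⟩ := exists_smul_eq M x0 x
      exact ⟨b, hb⟩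
  let E : M ≃ X := Equiv.ofBijective ev hev
  letI : CommGroup M := { (inferInstance : Group M) with
    mul_comm := fun a b => Subtype.ext (hMc a a.2 b b.2) }
  have : Nontrivial (Additive M) := by
    refine ⟨⟨Additive.ofMul ⟨a0, ha0M⟩, Additive.ofMul 1, ?_⟩⟩
    intro h
    exact ha0ne (congrArg Subtype.val (Additive.ofMul.injective h))
  obtain ⟨c, ⟨i, j, hij⟩, hc⟩ := good_space (V := Additive M) p (by
    intro v
    have h1 : (Additive.toMul v) ^ p = 1 := Subtype.ext (Additive.toMul v).2.2
    exact congrArg Additive.ofMul h1)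
  refine ⟨fun x => c (Additive.ofMul (E.symm x)), ⟨i, j, ?_⟩, ?_⟩
  · have e1 : ∀ i, Nat.card {x // c (Additive.ofMul (E.symm x)) = i}
        = Nat.card {v // c v = i} := by
      intro i
      exact Nat.card_congr ((E.symm.trans Additive.ofMul).subtypeEquiv (fun v => Iff.rfl))
    rw [e1, e1]
    exact hij
  · intro g hg
    -- the affine map
    set m0 : M := E.symm (g • x0) with hm0
    have hm0' : (m0 : G) • x0 = g • x0 := E.apply_symm_apply (g • x0)
    let ψ : M ≃* M := MulAut.conjNormal g
    have hψ : ∀ a : M, ((ψ a : M) : G) = g * a * g⁻¹ := fun a => MulAut.conjNormal_apply g a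
    let φ : Additive M ≃+ Additive M := MulEquiv.toAdditive ψ
    have hact : ∀ x : X, E.symm (g • x) = m0 * ψ (E.symm x) := by
      intro x
      apply E.injective
      rw [E.apply_symm_apply]
      show g • x = ((m0 * ψ (E.symm x) : M) : G) • x0
      rw [mul_comm, Subgroup.coe_mul, hψ, mul_smul, hm0', mul_smul, mul_smul, inv_smul_smul]
      congr 1
      exact (E.apply_symm_apply x).symm
    obtain ⟨k, hk⟩ := hc (Additive.ofMul m0) φ (by
      intro v
      have h1 := hg (E (Additive.toMul v))
      have h2 := hact (E (Additive.toMul v))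
      simp only [E.symm_apply_apply] at h1 h2
      rw [h2] at h1
      exact h1)
    refine ⟨k, fun x => ?_⟩
    have hsemi : Function.Semiconj (fun x : X => Additive.ofMul (E.symm x)) (fun x => g • x)
        (fun v => Additive.ofMul m0 + φ v) := by
      intro x
      show Additive.ofMul (E.symm (g • x)) = _
      rw [hact]
      rfl
    have h2 := hsemi.iterate_right (2 ^ k) x
    rw [hk] at h2
    have h3 : (fun x => g • x)^[2 ^ k] x = x := E.symm.injective (Additive.ofMul.injective h2)
    rw [smul_iterate] at h3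
    exact h3

/-- a maximal subgroup of a soluble group -/
theorem prim_quot {S : Type} [Group S] [Finite S] [Group.IsSolvable S] (U : Subgroup S)
    (hU : IsCoatom U) :
    ∃ c : S ⧸ U → Fin 3, (∃ i j, Nat.card {v // c v = i} ≠ Nat.card {v // c v = j}) ∧
      ∀ g : S, (∀ x, c (g • x) = c x) → ∃ k : ℕ, ∀ x : S ⧸ U, g ^ (2 ^ k) • x = x := by
  have : Nontrivial (S ⧸ U) := by
    rw [← not_subsingleton_iff_nontrivial]
    intro h
    apply hU.1
    rw [← Subgroup.index_eq_one]
    exact Nat.card_eq_one_iff_unique.2 ⟨h, ⟨((1 : S) : S ⧸ U)⟩⟩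
  have h1 : IsPreprimitive S (S ⧸ U) := by
    rw [← isCoatom_stabilizer_iff_preprimitive S ((1 : S) : S ⧸ U), stabilizer_quotient]
    exact hU
  let f := toPermHom S (S ⧸ U)
  have : Group.IsSolvable f.range := Group.isSolvable_of_surjective f.rangeRestrict_surjective
  have : FaithfulSMul f.range (S ⧸ U) := by
    constructor
    rintro ⟨a, ha⟩ ⟨b, hb⟩ h
    exact Subtype.ext (Equiv.ext h)
  let F : (S ⧸ U) →ₑ[f.rangeRestrict] (S ⧸ U) :=
    { toFun := id
      map_smul' := fun g x => rfl }
  have : IsPreprimitive f.range (S ⧸ U) := IsPreprimitive.of_surjective (f := F)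
    Function.surjective_id
  obtain ⟨c, hc1, hc2⟩ := prim (G := f.range) (X := S ⧸ U)
  refine ⟨c, hc1, fun g hg => ?_⟩
  obtain ⟨k, hk⟩ := hc2 (f.rangeRestrict g) (fun x => hg x)
  refine ⟨k, fun x => ?_⟩
  have := hk x
  rw [← map_pow] at this
  exact this

end Pool.Agent.R721.SC
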